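import Mathlib

set_option autoImplicit false

namespace Pool.Agent.Results.MP_e70d00_co.NotStable

open Finset

/-- The `t`-coset `T_{a,b}`. -/
def coset {n t : ℕ} (a b : Fin t ↪ Fin n) : Finset (Equiv.Perm (Fin n)) :=
  univ.filter (fun σ => ∀ i, σ (a i) = b i)

/-- The characteristic function of a family of permutations. -/
noncomputable def ind {n : ℕ} (A : Finset (Equiv.Perm (Fin n))) :
    EuclideanSpace ℝ (Equiv.Perm (Fin n)) :=
  WithLp.toLp 2 (fun σ => if σ ∈ A then 1 else 0)

/-- The span `U_t` of the characteristic functions of the `t`-cosets. -/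
noncomputable def U (n t : ℕ) : Submodule ℝ (EuclideanSpace ℝ (Equiv.Perm (Fin n))) :=
  Submodule.span ℝ {g | ∃ a b : Fin t ↪ Fin n, g = ind (coset a b)}

/-- The expectation under the uniform measure. -/
noncomputable def E {n : ℕ} (h : Equiv.Perm (Fin n) → ℝ) : ℝ := (∑ σ, h σ) / (n.factorial : ℝ)

/-- `C` is a union of `t`-cosets. -/
def IsCosetUnion {n : ℕ} (t : ℕ) (C : Finset (Equiv.Perm (Fin n))) : Prop :=
  ∃ T : Set ((Fin t ↪ Fin n) × (Fin t ↪ Fin n)), ∀ σ, σ ∈ C ↔ ∃ p ∈ T, σ ∈ coset p.1 p.2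

def pr {n : ℕ} (i j : Fin n) (h : i ≠ j) : Fin 2 ↪ Fin n :=
  ⟨![i, j], by
    intro a b e
    fin_cases a <;> fin_cases b <;> simp_all [h.symm]⟩

lemma two_mem {n : ℕ} (i j : Fin n) (h : i ≠ j) (g : Fin n → Fin n → ℝ) :
    (WithLp.toLp 2 (fun σ : Equiv.Perm (Fin n) => g (σ i) (σ j)) :
      EuclideanSpace ℝ (Equiv.Perm (Fin n))) ∈ U n 2 := by
  have : (WithLp.toLp 2 (fun σ : Equiv.Perm (Fin n) => g (σ i) (σ j)) :
      EuclideanSpace ℝ (Equiv.Perm (Fin n))) =
      ∑ b : Fin 2 ↪ Fin n, g (b 0) (b 1) • ind (coset (pr i j h) b) := by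
    ext σ
    simp only [WithLp.ofLp_sum, Finset.sum_apply, WithLp.ofLp_smul, Pi.smul_apply, ind,
      smul_eq_mul, coset, mem_filter, mem_univ, true_and]
    rw [Finset.sum_eq_single ((pr i j h).trans σ.toEmbedding)]
    · simp [pr]
    · intro b _ hb
      rw [if_neg, mul_zero]
      intro e
      exact hb (Function.Embedding.ext fun k => (e k).symm)
    · simp
  rw [this]
  exact Submodule.sum_mem _ fun b _ =>
    Submodule.smul_mem _ _ (Submodule.subset_span ⟨_, _, rfl⟩)

section
variable (m : ℕ)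

def lo (x : Fin (2 * m + 8)) : Bool := decide (x.val < m + 4)

def e3 (i : Fin 3) : Fin (2 * m + 8) := ⟨i.val, by omega⟩

def A : Finset (Equiv.Perm (Fin (2 * m + 8))) :=
  univ.filter (fun σ => ∀ i j : Fin 3, lo m (σ (e3 m i)) = lo m (σ (e3 m j)))

lemma e3_inj : Function.Injective (e3 m) := fun i j h => Fin.ext (by simpa [e3] using h)

lemma A_mem : ind (A m) ∈ U (2 * m + 8) 2 := by
  let x : Fin (2 * m + 8) → ℝ := fun a => if lo m a then 1 else 0
  have h01 := two_mem (e3 m 0) (e3 m 1) (by simp [e3]) (fun a b => x a * x b + 1 - x a - x b)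
  have h02 := two_mem (e3 m 0) (e3 m 2) (by simp [e3]) (fun a b => x a * x b - x b)
  have h12 := two_mem (e3 m 1) (e3 m 2) (by simp [e3]) (fun a b => x a * x b)
  convert Submodule.add_mem _ (Submodule.add_mem _ h01 h02) h12 using 1
  ext σ
  simp only [ind, A, mem_filter, mem_univ, true_and, Fin.forall_fin_succ, IsEmpty.forall_iff,
    and_true, PiLp.add_apply, x, Fin.succ_zero_eq_one, Fin.succ_one_eq_two]
  cases lo m (σ (e3 m 0)) <;> cases lo m (σ (e3 m 1)) <;> cases lo m (σ (e3 m 2)) <;> simp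

lemma A_ne : (A m).Nonempty := ⟨1, by
  simp only [A, mem_filter, mem_univ, true_and, lo, e3, Equiv.Perm.coe_one, id]
  intro i j
  have := i.2
  have := j.2
  rw [decide_eq_true (by omega), decide_eq_true (by omega)]⟩

lemma card_side (c : Bool) : m + 4 ≤ (univ.filter (fun y => lo m y ≠ c)).card := by
  cases c
  · have := card_le_card_of_injOn (s := (univ : Finset (Fin (m + 4))))
      (t := univ.filter (fun y => lo m y ≠ false)) (fun k => ⟨k.val, by omega⟩)
      (fun k _ => by simp [lo]) (fun a _ b _ h => Fin.ext (by simpa using h))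
    simpa using this
  · have := card_le_card_of_injOn (s := (univ : Finset (Fin (m + 4))))
      (t := univ.filter (fun y => lo m y ≠ true)) (fun k => ⟨m + 4 + k.val, by omega⟩)
      (fun k _ => by simp [lo]) (fun a _ b _ h => Fin.ext (by simpa using h))
    simpa using this

lemma nbrs (C : Finset (Equiv.Perm (Fin (2 * m + 8)))) (hC : IsCosetUnion 2 C)
    (σ : Equiv.Perm (Fin (2 * m + 8))) (h1 : σ ∈ C) (h2 : σ ∈ A m) :
    m + 2 ≤ (univ.filter (fun p : Fin 3 × Fin (2 * m + 8) =>
      σ * Equiv.swap (e3 m p.1) p.2 ∈ C \ A m)).card := by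
  obtain ⟨T, hT⟩ := hC
  obtain ⟨⟨a, b⟩, hp, hab⟩ := (hT σ).mp h1
  simp only [coset, mem_filter, mem_univ, true_and] at hab
  simp only [A, mem_filter, mem_univ, true_and] at h2
  obtain ⟨i, hi⟩ : ∃ i : Fin 3, ∀ k, a k ≠ e3 m i := by
    by_contra hc
    push Not at hc
    choose f hf using hc
    have : Function.Injective f := fun i j e => e3_inj m (by rw [← hf i, ← hf j, e])
    have := Fintype.card_le_of_injective f this
    simp at this
  have h3 : m + 4 ≤ (univ.filter (fun k => lo m (σ k) ≠ lo m (σ (e3 m i)))).card := by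
    refine (card_side m (lo m (σ (e3 m i)))).trans ?_
    refine card_le_card_of_injOn σ.symm (fun y hy => ?_) σ.symm.injective.injOn
    simpa using hy
  have h4 := le_card_sdiff (univ.image a) (univ.filter (fun k => lo m (σ k) ≠ lo m (σ (e3 m i))))
  have h5 : (univ.image a).card ≤ 2 := card_image_le.trans (by simp)
  refine le_trans (by omega) (card_le_card_of_injOn
    (s := univ.filter (fun k => lo m (σ k) ≠ lo m (σ (e3 m i))) \ univ.image a)
    (fun k => (i, k)) (fun k hk => ?_) (fun k _ l _ h => (Prod.mk.inj h).2))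
  simp only [coe_sdiff, coe_filter, mem_univ, true_and, coe_image, coe_univ, Set.image_univ,
    Set.mem_sdiff, Set.mem_ofPred_eq, Set.mem_range, not_exists] at hk
  simp only [coe_filter, mem_univ, true_and, Set.mem_ofPred_eq, mem_sdiff]
  constructor
  · refine (hT _).mpr ⟨(a, b), hp, ?_⟩
    simp only [coset, mem_filter, mem_univ, true_and, Equiv.Perm.mul_apply]
    intro l
    rw [Equiv.swap_apply_of_ne_of_ne (hi l) (hk.2 l), hab]
  · simp only [A, mem_filter, mem_univ, true_and, Equiv.Perm.mul_apply]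
    intro h6
    have h7 := h6 i (i + 1)
    have h8 : e3 m (i + 1) ≠ e3 m i := fun e => by
      have := e3_inj m e
      revert this
      fin_cases i <;> decide
    have h9 : e3 m (i + 1) ≠ k := fun e => hk.1 (by rw [← e]; exact h2 _ _)
    rw [Equiv.swap_apply_left, Equiv.swap_apply_of_ne_of_ne h8 h9] at h7
    exact hk.1 (h7.trans (h2 _ _))

lemma far (C : Finset (Equiv.Perm (Fin (2 * m + 8)))) (hC : IsCosetUnion 2 C) :
    (A m).card ≤ 12 * (symmDiff (A m) C).card := by
  have h1 : (C ∩ A m).card * (m + 2) ≤ (C \ A m).card * (3 * (2 * m + 8)) := by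
    have a1 : (C ∩ A m).card * (m + 2) ≤ ((C ∩ A m).sigma (fun σ => univ.filter
        (fun p : Fin 3 × Fin (2 * m + 8) => σ * Equiv.swap (e3 m p.1) p.2 ∈ C \ A m))).card := by
      rw [card_sigma]
      refine le_trans (by simp) (sum_le_sum fun σ hσ =>
        nbrs m C hC σ (mem_inter.mp hσ).1 (mem_inter.mp hσ).2)
    refine a1.trans ?_
    have := card_le_card_of_injOn (s := (C ∩ A m).sigma (fun σ => univ.filter
        (fun p : Fin 3 × Fin (2 * m + 8) => σ * Equiv.swap (e3 m p.1) p.2 ∈ C \ A m)))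
      (t := (C \ A m) ×ˢ (univ : Finset (Fin 3 × Fin (2 * m + 8))))
      (fun q => (q.1 * Equiv.swap (e3 m q.2.1) q.2.2, q.2)) (by
        intro q hq
        simp only [coe_sigma, Set.mem_sigma_iff, coe_filter, Set.mem_ofPred_eq] at hq
        simp only [coe_product, Set.mem_prod, mem_coe, mem_univ, and_true]
        exact hq.2.2) (by
        rintro ⟨σ, p⟩ - ⟨τ, q⟩ - h
        obtain ⟨h1, rfl⟩ := Prod.mk.inj h
        obtain rfl : σ = τ := mul_right_cancel h1
        rfl)
    simpa using this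
  have h2 : (C ∩ A m).card ≤ 12 * (C \ A m).card := by
    by_contra hc
    push Not at hc
    nlinarith
  have h3 : (symmDiff (A m) C).card = (A m \ C).card + (C \ A m).card := by
    rw [symmDiff_def, sup_eq_union, card_union_of_disjoint disjoint_sdiff_sdiff]
  have h4 := card_sdiff_add_card_inter (A m) C
  rw [inter_comm] at h4
  omega

end

/-- For every constant `C₀` the conjectured stability estimate fails, already for `t = 2`. -/
theorem result (C₀ : ℝ) :
    ∃ (n : ℕ) (ε : ℝ) (A : Finset (Equiv.Perm (Fin n))), 0 < ε ∧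
      E (fun σ => (ind A σ - (U n 2).starProjection (ind A) σ) ^ 2) ≤ ε * E (fun σ => ind A σ) ∧
      ∀ C : Finset (Equiv.Perm (Fin n)), IsCosetUnion 2 C →
        C₀ * (ε + 1 / n) * A.card < (symmDiff A C).card := by
  obtain ⟨m, hm⟩ := exists_nat_gt (12 * C₀)
  have hn : (0 : ℝ) < ((2 * m + 8 : ℕ) : ℝ) := by positivity
  refine ⟨2 * m + 8, 1 / ((2 * m + 8 : ℕ) : ℝ), A m, by positivity, ?_, fun C hC => ?_⟩
  · rw [Submodule.starProjection_eq_self_iff.mpr (A_mem m)]
    simp only [sub_self, E]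
    have : 0 ≤ ∑ σ, ind (A m) σ := sum_nonneg fun σ _ => by
      simp only [ind]
      split_ifs <;> norm_num
    simp only [ne_eq, OfNat.ofNat_ne_zero, not_false_eq_true, zero_pow, sum_const_zero, zero_div]
    positivity
  · have h1 : ((A m).card : ℝ) ≤ 12 * (symmDiff (A m) C).card := by exact_mod_cast far m C hC
    have h2 : (0 : ℝ) < (A m).card := by exact_mod_cast card_pos.mpr (A_ne m)
    have h3 : C₀ * (1 / ((2 * m + 8 : ℕ) : ℝ) + 1 / ((2 * m + 8 : ℕ) : ℝ)) < 1 / 12 := by
      rw [← add_div, ← mul_div_assoc, div_lt_iff₀ hn]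
      push_cast
      linarith
    nlinarith

end Pool.Agent.Results.MP_e70d00_co.NotStable
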